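import Pool.Agent.K7.H95.TP.Fin4
import Pool.Agent.K7.H95.TP.Low5
import Pool.Agent.K7.H98.TP.Win
import Pool.Agent.K7.H98.TP.Norm
import Pool.Agent.K7.H89.TP.Det
import Pool.Agent.K7.H89.TP.Eig
import Pool.Agent.K7.H89.TP.Anti

/-!
# No Poisson limit at the top of the spectrum of Gaussian random Toeplitz matrices (MP_0d5435_pr)

Let `X_0, X_1, ...` be independent standard Gaussian variables. For all `c, η > 0` and all
sequences `a_n`, `b_n > 0`, the point process of the eigenvalues of the symmetric Toeplitz matrix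
`(X_{|i-j|})`, shifted by `a_n` and scaled by `b_n`, does not converge to the Poisson process with
intensity `c e^{-η x}`.
-/

set_option autoImplicit false

open MeasureTheory ProbabilityTheory Filter Topology

namespace Pool.Agent.Results.MP_0d5435_pr.NoPoissonLimit

noncomputable section

/-- the `n × n` random symmetric Toeplitz matrix with entries `X_{|i-j|}`, at the sample point
`ω` -/
def toeplitz {Ω : Type*} (X : ℕ → Ω → ℝ) (n : ℕ) (ω : Ω) : Matrix (Fin n) (Fin n) ℝ :=
  Matrix.of fun i j => X (Int.natAbs ((i : ℤ) - (j : ℤ))) ω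

lemma toeplitz_isHermitian {Ω : Type*} (X : ℕ → Ω → ℝ) (n : ℕ) (ω : Ω) :
    (toeplitz X n ω).IsHermitian :=
  Pool.Agent.K7.H95.TP.Tz_herm n fun k => X k ω

/-- the number of points in `I` of the spectrum of the `n × n` Toeplitz matrix, shifted by `a` and
scaled by `b` (eigenvalues are counted with multiplicity) -/
def points {Ω : Type*} (X : ℕ → Ω → ℝ) (n : ℕ) (a b : ℝ) (I : Set ℝ) (ω : Ω) : ℕ :=
  Nat.card {i : Fin n // ((toeplitz_isHermitian X n ω).eigenvalues i - a) / b ∈ I}

/-- the measure `c e^{-η x} dx` on the line -/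
def expMeasure (c η : ℝ) : Measure ℝ :=
  volume.withDensity fun x => ENNReal.ofReal (c * Real.exp (-(η * x)))

/-- the probability that a Poisson variable with mean `m` is equal to `k` -/
def poissonWeight (m : ℝ) (k : ℕ) : ℝ := Real.exp (-m) * m ^ k / k.factorial

/-- the intervals `(s, ∞)` and `(s, t]` -/
def BoundedBelowInterval (I : Set ℝ) : Prop := (∃ s, I = Set.Ioi s) ∨ ∃ s t, I = Set.Ioc s t

/-- The top of the spectrum, shifted by `a n` and scaled by `b n`, converges to a Poisson point
process with intensity `c e^{-η x}`: for all pairwise disjoint intervals of the form `(s, ∞)` or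
`(s, t]`, the joint law of the numbers of points in these intervals converges to a product of
Poisson laws, with means the measures of the intervals. -/
def TopConvergesToPoisson {Ω : Type*} [MeasurableSpace Ω] (P : Measure Ω) (X : ℕ → Ω → ℝ)
    (a b : ℕ → ℝ) (c η : ℝ) : Prop :=
  ∀ (r : ℕ) (I : Fin r → Set ℝ), (∀ j, BoundedBelowInterval (I j)) →
    Pairwise (Function.onFun Disjoint I) → ∀ k : Fin r → ℕ,
    Tendsto (fun n => P.real {ω | ∀ j, points X n (a n) (b n) (I j) ω = k j}) atTop
      (𝓝 (∏ j, poissonWeight ((expMeasure c η).real (I j)) (k j)))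

open Pool.Agent.K7.H95.TP in
lemma points_eq {Ω : Type*} (X : ℕ → Ω → ℝ) (n : ℕ) {a b : ℝ} {I J : Set ℝ}
    (h : ∀ x : ℝ, (x - a) / b ∈ I ↔ x ∈ J) (ω : Ω) :
    points X n a b I ω = ct n (fun i : Fin n => X i ω) J := by
  have e : toeplitz X n ω = Tz n (xt fun i : Fin n => X i ω) := by
    have e1 : Tz n (fun k => X k ω) = Tz n (xt fun i : Fin n => X i ω) :=
      Tz_congr fun k hk => by rw [xt_lt _ hk]
    exact e1
  have key : ∀ (T : Matrix (Fin n) (Fin n) ℝ) (hT : T.IsHermitian)
      (_e : T = Tz n (xt fun i : Fin n => X i ω)),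
      Nat.card {i : Fin n // (hT.eigenvalues i - a) / b ∈ I} =
        ct n (fun i : Fin n => X i ω) J := by
    intro T hT e'
    subst e'
    unfold ct cnt
    refine Nat.card_congr (Equiv.subtypeEquivRight fun i => ?_)
    exact h _
  exact key _ (toeplitz_isHermitian X n ω) e

open Pool.Agent.K7.H95.TP in
/-- **No Poisson limit** at the top of the spectrum of Gaussian random Toeplitz matrices. -/
theorem result {Ω : Type*} [MeasurableSpace Ω] (P : Measure Ω) [IsProbabilityMeasure P]
    (X : ℕ → Ω → ℝ) (hX : ∀ k, Measurable (X k)) (hind : iIndepFun X P)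
    (hlaw : ∀ k, P.map (X k) = gaussianReal 0 1) (a b : ℕ → ℝ) (hb : ∀ n, 0 < b n)
    (c η : ℝ) (hc : 0 < c) (hη : 0 < η) : ¬ TopConvergesToPoisson P X a b c η := by
  intro H
  have hone : ∀ (I : Set ℝ) (J : ℕ → Set ℝ), BoundedBelowInterval I →
      (∀ n (x : ℝ), (x - a n) / b n ∈ I ↔ x ∈ J n) →
      (∀ n, Measurable fun g : Fin n → ℝ => ct n g (J n)) → ∀ k : ℕ,
      Tendsto (fun n => (gN n).real {g | ct n g (J n) = k}) atTop
        (𝓝 (poi ((expMeasure c η).real I) k)) := by
    intro I J hI hJ hm k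
    have h1 := H 1 (fun _ => I) (fun _ => hI) (fun i j hij => absurd (Subsingleton.elim i j) hij)
      (fun _ => k)
    rw [Fin.prod_univ_one] at h1
    refine (h1.congr fun n => ?_ : _)
    have h2 : {ω | ∀ _ : Fin 1, points X n (a n) (b n) I ω = k} =
        {ω | (fun i : Fin n => X i ω) ∈ {g | ct n g (J n) = k}} := by
      ext ω
      simp only [Set.mem_ofPred_eq, forall_const, points_eq X n (hJ n) ω]
    rw [h2]
    exact law_event hX hind hlaw n (hm n (measurableSet_singleton k))
  refine contra Pool.Agent.K7.H89.TP.s_EIG Pool.Agent.K7.H98.TP.s_NORM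
    Pool.Agent.K7.H98.TP.s_ONE s_LOW Pool.Agent.K7.H98.TP.s_WIN Pool.Agent.K7.H89.TP.s_DET
    Pool.Agent.K7.H89.TP.s_ANTI hb hc hη (a := a) (b := b) (c := c) (η := η) ?_ ?_
  · intro s k
    have h1 := hone (Set.Ioi s) (fun n => Set.Ioi (a n + b n * s)) (Or.inl ⟨s, rfl⟩) ?_ ?_ k
    · rw [show (expMeasure c η).real (Set.Ioi s) = mm c η s from real_Ioi hc hη s] at h1
      exact h1
    · intro n x
      rw [Set.mem_Ioi, Set.mem_Ioi, lt_div_iff₀ (hb n)]
      constructor <;> intro h <;> linarith
    · exact fun n => meas_ct_Ioi n _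
  · intro s t k hst
    have h1 := hone (Set.Ioc s t) (fun n => Set.Ioc (a n + b n * s) (a n + b n * t))
      (Or.inr ⟨s, t, rfl⟩) ?_ ?_ k
    · rw [show (expMeasure c η).real (Set.Ioc s t) = mm c η s - mm c η t from
        real_Ioc hc hη hst.le] at h1
      exact h1
    · intro n x
      rw [Set.mem_Ioc, Set.mem_Ioc, lt_div_iff₀ (hb n), div_le_iff₀ (hb n)]
      constructor <;> rintro ⟨h, h'⟩ <;> constructor <;> linarith
    · refine fun n => meas_ct_Ioc n ?_
      have := mul_le_mul_of_nonneg_left hst.le (hb n).le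
      linarith

end

end Pool.Agent.Results.MP_0d5435_pr.NoPoissonLimit
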